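import Pool.Agent.MP_c1891a_nt.H43.Basic

/-
A very small value of a sparse polynomial on the unit circle forces a root nearby.
-/

namespace Pool.Agent.MP_c1891a_nt.H43

open Finset Polynomial Module

lemma near_elim (t : ℕ → ℂ) (i : ℕ) (S : Finset ℕ)
    (hS : ∀ n ∈ S, ‖t n‖ ≤ 3 / 2) :
    ∀ (c : ℕ → ℂ) (B : ℝ),
      (∀ j ≤ S.card, ‖c i * t i ^ j + ∑ n ∈ S, c n * t n ^ j‖ ≤ B) →
      ‖c i‖ * ∏ n ∈ S, ‖t i - t n‖ ≤ (5 / 2) ^ S.card * B := by
  classical
  induction S using Finset.induction_on with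
  | empty =>
    intro c B h
    simpa using h 0 le_rfl
  | insert m S hm ih =>
    intro c B h
    rw [card_insert_of_notMem hm] at h ⊢
    have hB : 0 ≤ B := (norm_nonneg _).trans (h 0 (Nat.zero_le _))
    have htm : ‖t m‖ ≤ 3 / 2 := hS m (mem_insert_self _ _)
    have key := ih (fun n hn => hS n (mem_insert_of_mem hn)) (fun n => c n * (t n - t m))
      (5 / 2 * B) (by
        intro j hj
        have e : c i * (t i - t m) * t i ^ j + ∑ n ∈ S, c n * (t n - t m) * t n ^ j =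
            (c i * t i ^ (j + 1) + ∑ n ∈ insert m S, c n * t n ^ (j + 1)) -
              t m * (c i * t i ^ j + ∑ n ∈ insert m S, c n * t n ^ j) := by
          rw [sum_insert hm, sum_insert hm, mul_add, mul_add, mul_sum]
          have : ∑ n ∈ S, c n * (t n - t m) * t n ^ j =
              ∑ n ∈ S, c n * t n ^ (j + 1) - ∑ n ∈ S, t m * (c n * t n ^ j) := by
            rw [← sum_sub_distrib]
            exact sum_congr rfl fun n _ => by ring
          rw [this]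
          ring
        rw [e]
        refine (norm_sub_le _ _).trans ?_
        rw [norm_mul]
        have h1 := h (j + 1) (by omega)
        have h2 := h j (by omega)
        have h3 : ‖t m‖ * ‖c i * t i ^ j + ∑ n ∈ insert m S, c n * t n ^ j‖ ≤ 3 / 2 * B :=
          mul_le_mul htm h2 (norm_nonneg _) (by norm_num)
        linarith)
    rw [prod_insert hm, pow_succ]
    rw [norm_mul] at key
    calc ‖c i‖ * (‖t i - t m‖ * ∏ n ∈ S, ‖t i - t n‖)
        = ‖c i‖ * ‖t i - t m‖ * ∏ n ∈ S, ‖t i - t n‖ := by ring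
      _ ≤ (5 / 2) ^ S.card * (5 / 2 * B) := key
      _ = (5 / 2) ^ S.card * (5 / 2) * B := by ring

lemma near_prod_le {s : Multiset ℂ} {f g : ℂ → ℝ} (h0 : ∀ x ∈ s, 0 ≤ f x)
    (h : ∀ x ∈ s, f x ≤ g x) : (s.map f).prod ≤ (s.map g).prod := by
  induction s using Multiset.induction_on with
  | empty => simp
  | cons a s ih =>
    rw [Multiset.map_cons, Multiset.map_cons, Multiset.prod_cons, Multiset.prod_cons]
    have h1 := ih (fun x hx => h0 x (Multiset.mem_cons_of_mem hx))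
      (fun x hx => h x (Multiset.mem_cons_of_mem hx))
    have h2 : 0 ≤ (s.map f).prod := Multiset.prod_nonneg (by
      intro y hy
      obtain ⟨x, hx, rfl⟩ := Multiset.mem_map.1 hy
      exact h0 x (Multiset.mem_cons_of_mem hx))
    have h3 := h0 a (Multiset.mem_cons_self _ _)
    exact mul_le_mul (h a (Multiset.mem_cons_self _ _)) h1 h2
      (h3.trans (h a (Multiset.mem_cons_self _ _)))

lemma near_grow {F : ℂ[X]} {η z : ℂ} {δ t : ℝ} (ht : 0 ≤ t)
    (hfar : ∀ α ∈ F.roots, δ ≤ ‖η - α‖) (hz : ‖z - η‖ ≤ t * δ) :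
    ‖F.eval z‖ ≤ ‖F.eval η‖ * (1 + t) ^ F.natDegree := by
  have hsp : F.Splits := IsAlgClosed.splits _
  have e : ∀ w : ℂ, ‖F.eval w‖ = ‖F.leadingCoeff‖ * (F.roots.map fun α => ‖w - α‖).prod := by
    intro w
    rw [hsp.eval_eq_prod_roots, norm_mul]
    congr 1
    have := map_multiset_prod (normHom : ℂ →*₀ ℝ) (F.roots.map fun α => w - α)
    simpa only [normHom_apply, Multiset.map_map, Function.comp_def] using this
  rw [e z, e η, mul_assoc]
  refine mul_le_mul_of_nonneg_left ?_ (norm_nonneg _)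
  rw [hsp.natDegree_eq_card_roots, ← Multiset.prod_replicate, ← Multiset.map_const',
    ← Multiset.prod_map_mul]
  refine near_prod_le (fun x _ => norm_nonneg _) fun α hα => ?_
  have h1 : ‖z - α‖ ≤ ‖z - η‖ + ‖η - α‖ := norm_sub_le_norm_sub_add_norm_sub _ _ _
  have h2 := hfar α hα
  nlinarith

lemma near_pow_le {x : ℝ} {n : ℕ} (hx : 0 ≤ x) (h : n * x ≤ 1 / 2) : (1 + x) ^ n ≤ 1 + 2 * n * x := by
  induction n with
  | zero => simp
  | succ n ih =>
    push_cast at h ⊢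
    have h1 : (n : ℝ) * x ≤ 1 / 2 := by nlinarith
    have h2 := ih h1
    rw [pow_succ]
    have h3 : (1 + x) ^ n * (1 + x) ≤ (1 + 2 * n * x) * (1 + x) :=
      mul_le_mul_of_nonneg_right h2 (by linarith)
    nlinarith

lemma near_gap {x : ℝ} (hx : 0 ≤ x) {m n : ℕ} (h : m < n) : x ≤ (1 + x) ^ n - (1 + x) ^ m := by
  have h1 : (1 : ℝ) ≤ (1 + x) ^ m := one_le_pow₀ (by linarith)
  have h2 : (1 + x) ^ (m + 1) ≤ (1 + x) ^ n := pow_le_pow_right₀ (by linarith) h
  rw [pow_succ] at h2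
  nlinarith

theorem sNear : SNear := by
  classical
  intro f k a ξ d hdeg hcard ha hk hξ hd hd1 hfar i
  by_cases hi : f.coeff i = 0
  · rw [hi, norm_zero, zero_mul]
    positivity
  have hf : f ≠ 0 := by
    rintro rfl
    simp at hi
  have hiS : i ∈ f.support := mem_support_iff.2 hi
  have ha' : (1 : ℝ) ≤ a := by exact_mod_cast ha
  have hk' : (1 : ℝ) ≤ k := by exact_mod_cast hk
  set φ : ℝ := d / (4 * k * a) with hφ
  have hφ0 : 0 < φ := by positivity
  have hka : (1 : ℝ) ≤ k * a := by nlinarith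
  have hkaφ : (k : ℝ) * a * φ = d / 4 := by rw [hφ]; field_simp
  have hφ1 : φ ≤ 1 := by nlinarith
  set S := f.support.erase i with hS
  have hSc : S.card + 1 ≤ k := by
    rw [hS, card_erase_add_one hiS]
    exact hcard
  set t : ℕ → ℂ := fun n => (((1 + φ) ^ n : ℝ) : ℂ) with ht
  have htn : ∀ n ∈ S, ‖t n‖ ≤ 3 / 2 := by
    intro n hn
    have hn' : n ≤ a := (le_natDegree_of_mem_supp n (mem_of_mem_erase hn)).trans hdeg
    have hn'' : (n : ℝ) ≤ a := by exact_mod_cast hn'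
    rw [ht]
    simp only [Complex.norm_real, Real.norm_eq_abs]
    rw [abs_of_nonneg (by positivity)]
    have h1 : (n : ℝ) * φ ≤ 1 / 4 := by nlinarith
    have h2 := near_pow_le (n := n) hφ0.le (by linarith)
    nlinarith
  have hval : ∀ j ≤ S.card, ‖f.coeff i * ξ ^ i * t i ^ j +
      ∑ n ∈ S, f.coeff n * ξ ^ n * t n ^ j‖ ≤ 2 * ‖f.eval ξ‖ := by
    intro j hj
    have hj' : (j : ℝ) ≤ k := by exact_mod_cast (by omega : j ≤ k)
    have e : f.coeff i * ξ ^ i * t i ^ j + ∑ n ∈ S, f.coeff n * ξ ^ n * t n ^ j =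
        f.eval (ξ * t j) := by
      rw [eval_eq_sum, Polynomial.sum, hS,
        add_sum_erase _ (fun n => f.coeff n * ξ ^ n * t n ^ j) hiS]
      refine sum_congr rfl fun n _ => ?_
      rw [ht]
      push_cast
      rw [mul_pow, ← pow_mul, ← pow_mul, mul_comm n j, mul_assoc]
    rw [e]
    have hjφ : (j : ℝ) * φ ≤ 1 / 4 := by nlinarith
    have hz : ‖ξ * t j - ξ‖ ≤ 1 / (2 * a) * d := by
      have e2 : ξ * t j - ξ = ξ * ((((1 + φ) ^ j - 1 : ℝ)) : ℂ) := by
        rw [ht]; push_cast; ring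
      rw [e2, norm_mul, hξ, one_mul, Complex.norm_real, Real.norm_eq_abs,
        abs_of_nonneg (sub_nonneg.2 (one_le_pow₀ (by linarith)))]
      have h2 := near_pow_le (n := j) hφ0.le (by linarith)
      have h3 : 2 * k * φ = 1 / (2 * a) * d := by rw [hφ]; field_simp; ring
      nlinarith
    have hg := near_grow (F := f) (η := ξ) (z := ξ * t j) (δ := d) (t := 1 / (2 * a))
      (by positivity) (fun α hα => by
        rw [norm_sub_rev]
        exact hfar α ((mem_roots hf).1 hα)) hz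
    refine hg.trans ?_
    rw [mul_comm]
    refine mul_le_mul_of_nonneg_right ?_ (norm_nonneg _)
    have h4 : (1 + 1 / (2 * (a : ℝ))) ^ f.natDegree ≤ (1 + 1 / (2 * (a : ℝ))) ^ a :=
      pow_le_pow_right₀ (le_add_of_nonneg_right (by positivity)) hdeg
    have h5 : (a : ℝ) * (1 / (2 * a)) = 1 / 2 := by field_simp
    have h6 := near_pow_le (x := 1 / (2 * (a : ℝ))) (n := a) (by positivity) h5.le
    nlinarith
  have key := near_elim t i S htn (fun n => f.coeff n * ξ ^ n) _ hval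
  have hlow : φ ^ S.card ≤ ∏ n ∈ S, ‖t i - t n‖ := by
    rw [← prod_const]
    refine prod_le_prod (fun _ _ => hφ0.le) fun n hn => ?_
    have hne : n ≠ i := ne_of_mem_erase hn
    have e2 : t i - t n = ((((1 + φ) ^ i - (1 + φ) ^ n : ℝ)) : ℂ) := by
      rw [ht]; push_cast; ring
    rw [e2, Complex.norm_real, Real.norm_eq_abs]
    rcases lt_or_gt_of_ne hne with h | h
    · exact (near_gap hφ0.le h).trans (le_abs_self _)
    · rw [abs_sub_comm]
      exact (near_gap hφ0.le h).trans (le_abs_self _)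
  rw [norm_mul, norm_pow, hξ, one_pow, mul_one] at key
  have hψ : d / (10 * k * a) = 2 / 5 * φ := by rw [hφ]; field_simp; ring
  have h7 : (2 / 5 * φ) ^ k ≤ (2 / 5 * φ) ^ S.card :=
    pow_le_pow_of_le_one (by positivity) (by linarith) (by omega)
  have h8 : (2 : ℝ) ≤ 2 ^ k := by
    calc (2 : ℝ) = 2 ^ 1 := by norm_num
      _ ≤ 2 ^ k := pow_le_pow_right₀ (by norm_num) hk
  have h9 : ((2 : ℝ) / 5) ^ S.card * (5 / 2) ^ S.card = 1 := by
    rw [← mul_pow]; norm_num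
  rw [hψ]
  calc ‖f.coeff i‖ * (2 / 5 * φ) ^ k ≤ ‖f.coeff i‖ * (2 / 5 * φ) ^ S.card :=
        mul_le_mul_of_nonneg_left h7 (norm_nonneg _)
    _ = (2 / 5) ^ S.card * (‖f.coeff i‖ * φ ^ S.card) := by rw [mul_pow]; ring
    _ ≤ (2 / 5) ^ S.card * (‖f.coeff i‖ * ∏ n ∈ S, ‖t i - t n‖) := by gcongr
    _ ≤ (2 / 5) ^ S.card * ((5 / 2) ^ S.card * (2 * ‖f.eval ξ‖)) := by gcongr
    _ = 2 * ‖f.eval ξ‖ := by rw [← mul_assoc, h9, one_mul]
    _ ≤ 2 ^ k * ‖f.eval ξ‖ := by gcongr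

lemma near_coeff (h2 : SField) (h3 : SNormP) (P : LP) {g : ℕ} {ω : ℂ} (hg : 0 < g)
    (hω : IsPrimitiveRoot ω g) (k₁ k₂ v₁ v₂ : ℤ) (hF : F1 P (ω ^ k₁) (ω ^ k₂) v₁ v₂ ≠ 0) :
    (∃ i, 1 ≤ ‖(F1 P (ω ^ k₁) (ω ^ k₂) v₁ v₂).coeff i‖ * ((Hn P : ℝ) + 1) ^ g) ∧
      ∀ α : ℂ, (F1 P (ω ^ k₁) (ω ^ k₂) v₁ v₂).IsRoot α → IsAlgebraic ℚ α := by
  classical
  obtain ⟨L, _, _, ι, ω', hι, hrank, -⟩ := h2.1 g ω hg hω
  have hω' : ω' ^ g = 1 := by
    apply ι.injective
    rw [map_pow, hι, hω.pow_eq_one, map_one]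
  have hz : ∀ k : ℤ, ∃ n, 0 < n ∧ (ω' ^ k) ^ n = 1 := fun k =>
    ⟨g, hg, by rw [← zpow_natCast, ← zpow_mul, mul_comm, zpow_mul, zpow_natCast, hω', one_zpow]⟩
  set f := F1 P (ω' ^ k₁) (ω' ^ k₂) v₁ v₂ with hf
  have hmap : f.map ι = F1 P (ω ^ k₁) (ω ^ k₂) v₁ v₂ := by
    rw [hf, F1_map, map_zpow₀, map_zpow₀, hι]
  have hf0 : f ≠ 0 := by
    intro h
    rw [h, Polynomial.map_zero] at hmap
    exact hF hmap.symm
  constructor
  · refine ⟨f.natDegree, ?_⟩
    have hc : f.coeff f.natDegree ≠ 0 := leadingCoeff_ne_zero.2 hf0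
    have hint : IsIntegral ℤ (f.coeff f.natDegree) := F1_intC P (hz k₁) (hz k₂) v₁ v₂ _
    have h1 := (h3 L).1 _ hint hc
    have hb : ∀ σ : L →+* ℂ, ‖σ (f.coeff f.natDegree)‖ ≤ (Hn P : ℝ) + 1 := by
      intro σ
      have hσ : ∀ k : ℤ, ‖σ (ω' ^ k)‖ = 1 := fun k => by
        obtain ⟨n, hn, e⟩ := hz k
        exact Tor.norm ⟨n, hn, by rw [← map_pow, e, map_one]⟩
      rw [← coeff_map]
      refine (norm_coeff_le_l1 _ _).trans ?_
      rw [hf, F1_map]
      linarith [F1_l1 P (hσ k₁) (hσ k₂) v₁ v₂]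
    rw [← mul_prod_erase univ _ (mem_univ ι)] at h1
    rw [← hmap, coeff_map]
    refine h1.trans (mul_le_mul_of_nonneg_left ?_ (norm_nonneg _))
    have hH : (1 : ℝ) ≤ (Hn P : ℝ) + 1 := le_add_of_nonneg_left (Nat.cast_nonneg _)
    calc ∏ σ ∈ univ.erase ι, ‖σ (f.coeff f.natDegree)‖
        ≤ ∏ _σ ∈ univ.erase ι, ((Hn P : ℝ) + 1) :=
          prod_le_prod (fun _ _ => norm_nonneg _) fun σ _ => hb σ
      _ = ((Hn P : ℝ) + 1) ^ (univ.erase ι).card := prod_const _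
      _ ≤ ((Hn P : ℝ) + 1) ^ g := by
          refine pow_le_pow_right₀ hH ?_
          refine (card_erase_le).trans ?_
          rw [card_univ, NumberField.Embeddings.card, hrank]
          exact Nat.totient_le g
  · intro α hα
    let _ : Algebra L ℂ := ι.toAlgebra
    have _ : IsScalarTower ℚ L ℂ := IsScalarTower.of_algebraMap_eq fun q => by
      change _ = ι _
      simp
    have h1 : IsAlgebraic L α := ⟨f, hf0, by
      rw [aeval_def, ← eval_map]
      change (f.map ι).eval α = 0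
      rw [hmap]
      exact hα⟩
    exact h1.restrictScalars ℚ

theorem sNearP (h1 : SNear) (h2 : SField) (h3 : SNormP) : SNearP := by
  intro P
  set k : ℕ := P.coeff.support.card + 1 with hk
  set H : ℕ := Hn P with hH
  set R : ℕ := Rn P with hR
  refine ⟨H + 2 * k + 10 * k ^ 2 * (2 * R + 1) + 1, ?_⟩
  intro g ω X₀ k₁ k₂ v₁ v₂ s hg hω hX hs hne hsmall
  by_contra hcon
  push Not at hcon
  have hX0 : X₀ ≠ 0 := by
    rintro rfl
    simp at hX
  have hg' : (1 : ℝ) ≤ g := by exact_mod_cast hg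
  rw [Int.cast_abs, Int.cast_abs] at hs
  have hv1 : (0 : ℝ) ≤ |(v₁ : ℝ)| := abs_nonneg _
  have hv2 : (0 : ℝ) ≤ |(v₂ : ℝ)| := abs_nonneg _
  have hgs : (g : ℝ) ≤ s := by nlinarith
  have hvs : |(v₁ : ℝ)| + |(v₂ : ℝ)| + 1 ≤ s := by nlinarith
  have hs1 : 1 ≤ s := by linarith
  set F := F1 P (ω ^ k₁) (ω ^ k₂) v₁ v₂ with hF
  have hev : ‖F.eval X₀‖ = ‖ev P (ω ^ k₁ * X₀ ^ v₁) (ω ^ k₂ * X₀ ^ v₂)‖ := by
    rw [hF, F1_eval P _ _ _ _ hX0, norm_mul, norm_pow, hX, one_pow, one_mul]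
  have hF0 : F ≠ 0 := by
    intro h
    rw [h, eval_zero, norm_zero] at hev
    exact hne (norm_eq_zero.1 hev.symm)
  obtain ⟨⟨i, hi⟩, halg⟩ := near_coeff h2 h3 P hg hω k₁ k₂ v₁ v₂ hF0
  have hd0 : 0 < Real.exp (-s) := Real.exp_pos _
  have hd1 : Real.exp (-s) < 1 := by
    rw [← Real.exp_zero]
    exact Real.exp_lt_exp.2 (by linarith)
  have hfar : ∀ α, F.IsRoot α → Real.exp (-s) ≤ ‖α - X₀‖ := by
    intro α hα
    by_contra hlt
    push Not at hlt
    have hα0 : α ≠ 0 := by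
      rintro rfl
      rw [zero_sub, norm_neg, hX] at hlt
      linarith
    refine hcon α hα0 (halg α hα) hlt.le ?_
    have := hα.eq_zero
    rw [hF, F1_eval P _ _ _ _ hα0] at this
    exact (mul_eq_zero.1 this).resolve_left (pow_ne_zero _ hα0)
  set a : ℕ := 2 * A1 P v₁ v₂ + 1 with ha
  have key := h1 F k a X₀ (Real.exp (-s)) ((F1_natDegree P _ _ v₁ v₂).trans (Nat.le_succ _))
    ((F1_support_card P _ _ v₁ v₂).trans (Nat.le_succ _)) (by omega) (by omega) hX hd0 hd1.le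
    hfar i
  rw [hev] at key
  have hk1 : (1 : ℝ) ≤ k := by exact_mod_cast (by omega : 1 ≤ k)
  have ha1 : (1 : ℝ) ≤ a := by exact_mod_cast (by omega : 1 ≤ a)
  have hR0 : (0 : ℝ) ≤ R := Nat.cast_nonneg _
  have hH0 : (0 : ℝ) ≤ H := Nat.cast_nonneg _
  have has : (a : ℝ) ≤ (2 * R + 1) * s := by
    have : (a : ℝ) = 2 * (R * (|(v₁ : ℝ)| + |(v₂ : ℝ)|)) + 1 := by
      rw [ha, A1]
      push_cast
      rw [Nat.cast_natAbs, Nat.cast_natAbs, Int.cast_abs, Int.cast_abs]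
    rw [this]
    nlinarith
  have e1 : ((H : ℝ) + 1) ^ g ≤ Real.exp (H * s) := by
    calc ((H : ℝ) + 1) ^ g ≤ Real.exp H ^ g := by
          gcongr
          exact Real.add_one_le_exp _
      _ = Real.exp (g * H) := (Real.exp_nat_mul _ _).symm
      _ ≤ Real.exp (H * s) := Real.exp_le_exp.2 (by nlinarith)
  have e2 : (2 : ℝ) ^ k ≤ Real.exp (k * s) := by
    calc (2 : ℝ) ^ k ≤ Real.exp 1 ^ k := by
          gcongr
          linarith [Real.add_one_le_exp (1 : ℝ)]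
      _ = Real.exp (k * 1) := (Real.exp_nat_mul _ _).symm
      _ ≤ Real.exp (k * s) := Real.exp_le_exp.2 (by nlinarith)
  have e3 : (10 * (k : ℝ) * a) ^ k ≤ Real.exp (10 * k ^ 2 * (2 * R + 1) * s) := by
    calc (10 * (k : ℝ) * a) ^ k ≤ Real.exp (10 * k * a) ^ k := by
          gcongr
          linarith [Real.add_one_le_exp (10 * (k : ℝ) * a)]
      _ = Real.exp (k * (10 * k * a)) := (Real.exp_nat_mul _ _).symm
      _ ≤ Real.exp (10 * k ^ 2 * (2 * R + 1) * s) := by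
          refine Real.exp_le_exp.2 ?_
          have : (k : ℝ) * (10 * k * a) = 10 * k ^ 2 * a := by ring
          rw [this, mul_assoc (10 * (k : ℝ) ^ 2)]
          gcongr
  have e4 : Real.exp (-s) ^ k = Real.exp (-(k * s)) := by
    rw [← Real.exp_nat_mul]
    congr 1
    ring
  rw [div_pow, e4, ← mul_div_assoc, div_le_iff₀ (by positivity)] at key
  have e5 : Real.exp (-(k * s)) ≤
      ‖F.coeff i‖ * Real.exp (-(k * s)) * Real.exp (H * s) := by
    have : 1 ≤ ‖F.coeff i‖ * Real.exp (H * s) :=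
      hi.trans (mul_le_mul_of_nonneg_left e1 (norm_nonneg _))
    nlinarith [Real.exp_pos (-(k * s))]
  have e6 : ‖F.coeff i‖ * Real.exp (-(k * s)) * Real.exp (H * s) ≤
      Real.exp (k * s) *
        Real.exp (-(((H + 2 * k + 10 * k ^ 2 * (2 * R + 1) + 1 : ℕ) : ℝ) * s)) *
        Real.exp (10 * k ^ 2 * (2 * R + 1) * s) * Real.exp (H * s) := by
    refine mul_le_mul_of_nonneg_right (key.trans ?_) (Real.exp_pos _).le
    gcongr
  have e7 := e5.trans e6
  rw [← Real.exp_add, ← Real.exp_add, ← Real.exp_add, Real.exp_le_exp] at e7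
  push_cast at e7
  nlinarith

end Pool.Agent.MP_c1891a_nt.H43
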